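import Pool.Agent.Work.MP_20a6e6_al.C2Proof

/-!
# Groups of exponent 5: pairs `a`, `b` such that `a` and `b⁻¹ a b` generate a group of class 2

Definitions in `C2Defs`, proof in `C2Proof`.
-/

set_option autoImplicit false

namespace Pool.Agent.Results.MP_20a6e6_al.ClassTwoPairs

open scoped commutatorElement
open Pool.Agent.B5C2

/-- Let `G` be a group of exponent 5, `R` a normal subgroup and `a, b ∈ G` such that `R` contains the
commutators of `[a, b⁻¹ a b]` with `a` and with `b⁻¹ a b`. Then the normal closure `N` of `a` in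
`⟨a, b⟩` satisfies `[[[N, N], N], N] ≤ R`, and if `R` is locally finite (for example trivial), then
`⟨a, b⟩` is finite. -/
theorem result (G : Type) [Group G] (hexp : ∀ g : G, g ^ 5 = 1) (R : Subgroup G) (hRn : R.Normal)
    (a b : G) (h1 : ⁅⁅a, b⁻¹ * a * b⁆, a⁆ ∈ R) (h2 : ⁅⁅a, b⁻¹ * a * b⁆, b⁻¹ * a * b⁆ ∈ R) :
    (∀ x ∈ ncl a b, ∀ y ∈ ncl a b, ∀ z ∈ ncl a b, ∀ t ∈ ncl a b, ⁅⁅⁅x, y⁆, z⁆, t⁆ ∈ R) ∧
    (LocFin R → Finite ↥(Subgroup.closure {a, b})) :=
  main_thm G hexp R hRn a b h1 h2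

end Pool.Agent.Results.MP_20a6e6_al.ClassTwoPairs
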