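import Pool.Agent.Work.MP_20a6e6_al.CCProof

/-!
# Groups of exponent 5 in which a subgroup commutes with one of its conjugates

Definitions in `CCDefs`, proof in `CCProof`.
-/

set_option autoImplicit false

namespace Pool.Agent.Results.MP_20a6e6_al.CommutingConjugates

open scoped commutatorElement
open Pool.Agent.B5CC

/-- Let `G` be a group of exponent 5, `R` a normal subgroup, `A` a subgroup and `b` an element of `G`,
and suppose that `R` contains the commutators of the elements of `A` with those of `b⁻¹ A b`. Then the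
normal closure `N` of `A` in `⟨A, b⟩` satisfies `[[N, N], N] ≤ R`, and `[N, N] ≤ R` if `[A, A] ≤ R`;
if `R` is locally finite (for example trivial) and `A` is finitely generated, then `⟨A, b⟩` is finite. -/
theorem result (G : Type) [Group G] (hexp : ∀ g : G, g ^ 5 = 1) (R A : Subgroup G) (b : G)
    (hRn : R.Normal) (hc : ∀ x ∈ A, ∀ y ∈ A, ⁅x, b⁻¹ * y * b⁆ ∈ R) :
    (∀ x ∈ ncl A b, ∀ y ∈ ncl A b, ∀ z ∈ ncl A b, ⁅⁅x, y⁆, z⁆ ∈ R) ∧
    ((∀ x ∈ A, ∀ y ∈ A, ⁅x, y⁆ ∈ R) → ∀ x ∈ ncl A b, ∀ y ∈ ncl A b, ⁅x, y⁆ ∈ R) ∧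
    (LocFin R → A.FG → Finite ↥(A ⊔ Subgroup.zpowers b)) :=
  main_thm G hexp R A b hRn hc

end Pool.Agent.Results.MP_20a6e6_al.CommutingConjugates
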