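import Mathlib

/-!
# Burnside groups of exponent 5: membership in the locally finite radical is a local property

For elements `x, h 0, h 1, ...` of a group put `v 0 = x` and `v (j+1) = [v j, (v j)^(h j)]`.
If `x` is an element of a periodic group `G` and `v m = 1` for all choices of `h 0, ..., h (m-1)`
in `G`, then the normal closure of `x` in `G` is locally finite (`crit_v`). So one relation in the
Burnside group `B(n,m+1)` is sufficient for the finiteness of all `B(n,r)` (`result`).
-/

set_option autoImplicit false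

namespace Pool.Agent.Results.MP_20a6e6_al.RadicalCriterion

/-! ## Definitions used in the statement -/

/-- A subgroup is locally finite if each finite subset generates a finite subgroup. -/
def LocFin {G : Type} [Group G] (N : Subgroup G) : Prop :=
  ∀ S : Set G, S.Finite → S ⊆ N → Finite (Subgroup.closure S)

/-- The commutator `[a, b] = a⁻¹ b⁻¹ a b`. -/
def co {G : Type} [Group G] (a b : G) : G := a⁻¹ * b⁻¹ * a * b

/-- `v x h 0 = x` and `v x h (j+1) = [w, w^(h j)]`, where `w = v x h j`. -/
def v {G : Type} [Group G] (x : G) (h : ℕ → G) : ℕ → G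
  | 0 => x
  | j + 1 => co (v x h j) ((h j)⁻¹ * v x h j * h j)

/-- `der P j` is the `j`-th member of the derived series of the subgroup `P`. -/
def der {G : Type} [Group G] (P : Subgroup G) : ℕ → Subgroup G
  | 0 => P
  | j + 1 => ⁅der P j, der P j⁆

/-- The normal closure of `x` in the subgroup generated by `x, h 0, ..., h (m-1)`. -/
def ncl {G : Type} [Group G] (x : G) (h : ℕ → G) (m : ℕ) : Subgroup G :=
  Subgroup.closure {y | ∃ g ∈ Subgroup.closure ({x} ∪ {z | ∃ i < m, z = h i}), y = g⁻¹ * x * g}

/-- The Burnside group `B(n,r)`. -/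
abbrev B (n r : ℕ) : Type :=
  FreeGroup (Fin r) ⧸ Subgroup.normalClosure (Set.range (fun x : FreeGroup (Fin r) => x ^ n))

/-- The image in `B(n,r)` of the free generator with number `i` (and `1` if `i ≥ r`). -/
def gen (n r i : ℕ) : B n r :=
  if hi : i < r then QuotientGroup.mk (FreeGroup.of (⟨i, hi⟩ : Fin r)) else 1

/-! ## Extensions of locally finite groups -/

section ext
variable {G : Type} [Group G]

theorem locFin_ext {N A : Subgroup G} [N.Normal] (hN : LocFin N)
    (hq : ∀ S : Set G, S.Finite → S ⊆ A →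
      Finite ((Subgroup.closure S).map (QuotientGroup.mk' N))) : LocFin A := by
  intro S hS hSA
  set F := Subgroup.closure S with hF
  have hfin := hq S hS hSA
  have : Finite S := hS
  have : Group.FG F := Group.closure_finite_fg S
  let φ : F →* G ⧸ N := (QuotientGroup.mk' N).comp F.subtype
  have hr : φ.range = F.map (QuotientGroup.mk' N) := by
    rw [MonoidHom.range_comp, Subgroup.range_subtype]
  have : Finite φ.range := by rw [hr]; exact hfin
  have : Finite (F ⧸ φ.ker) := Finite.of_equiv _ (QuotientGroup.quotientKerEquivRange φ).symm.toEquiv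
  have : φ.ker.FiniteIndex := Subgroup.finiteIndex_of_finite_quotient
  have hfg : Group.FG φ.ker := Subgroup.fg_of_index_ne_zero φ.ker
  obtain ⟨T, hT⟩ := (Group.fg_iff_subgroup_fg φ.ker).mp hfg
  have hTN : ∀ t ∈ T, ((t : F) : G) ∈ N := by
    intro t ht
    have : t ∈ φ.ker := by rw [← hT]; exact Subgroup.subset_closure ht
    have h1 : (QuotientGroup.mk' N) (t : G) = 1 := this
    exact (QuotientGroup.eq_one_iff (t : G)).mp h1
  have hmap : φ.ker.map F.subtype = Subgroup.closure (F.subtype '' (T : Set F)) := by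
    rw [← hT, MonoidHom.map_closure]
  have : Finite (φ.ker.map F.subtype) := by
    rw [hmap]
    refine hN _ (T.finite_toSet.image _) ?_
    rintro _ ⟨t, ht, rfl⟩
    exact hTN t ht
  have : Finite φ.ker :=
    Finite.of_equiv _ (φ.ker.equivMapOfInjective F.subtype F.subtype_injective).symm.toEquiv
  exact Finite.of_subgroup_quotient φ.ker

theorem locFin_mono {N A : Subgroup G} (h : A ≤ N) (hN : LocFin N) : LocFin A :=
  fun S hS hSA => hN S hS (hSA.trans h)

/-- A maximal locally finite normal subgroup. -/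
theorem exists_max : ∃ N : Subgroup G, ∃ _ : N.Normal, LocFin N ∧
    ∀ A : Subgroup G, A.Normal → N ≤ A → LocFin A → A ≤ N := by
  obtain ⟨N, hN⟩ := zorn_le_nonempty₀ {N : Subgroup G | N.Normal ∧ LocFin N} (by
    intro c hc hch y hy
    refine ⟨sSup c, ⟨?_, ?_⟩, fun z hz => le_sSup hz⟩
    · refine ⟨fun n hn g => ?_⟩
      rw [Subgroup.mem_sSup_of_directedOn ⟨y, hy⟩ hch.directedOn] at hn ⊢
      obtain ⟨s, hs, hns⟩ := hn
      exact ⟨s, hs, (hc hs).1.conj_mem n hns g⟩
    · intro S hS hSc
      have key : ∀ T : Set G, T.Finite → T ⊆ (sSup c : Subgroup G) →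
          ∃ s ∈ c, T ⊆ (s : Set G) := by
        intro T hT
        refine Set.Finite.induction_on T hT ?_ ?_
        · intro _
          exact ⟨y, hy, Set.empty_subset _⟩
        · intro a T' _ _ ih hsub
          obtain ⟨s, hs, hTs⟩ := ih (fun t ht => hsub (Set.mem_insert_of_mem a ht))
          have ha := hsub (Set.mem_insert a T')
          rw [SetLike.mem_coe, Subgroup.mem_sSup_of_directedOn ⟨y, hy⟩ hch.directedOn] at ha
          obtain ⟨s', hs', has'⟩ := ha
          rcases hch.total hs hs' with h | h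
          · refine ⟨s', hs', Set.insert_subset has' (fun t ht => h (hTs ht))⟩
          · exact ⟨s, hs, Set.insert_subset (h has') hTs⟩
      obtain ⟨s, hs, hSs⟩ := key S hS hSc
      exact (hc hs).2 S hS hSs) ⊥ ⟨inferInstance, by
        intro S hS hSb
        have : Subgroup.closure S = ⊥ := by
          rw [Subgroup.closure_eq_bot_iff]
          intro s hs
          simpa using hSb hs
        rw [this]
        infer_instance⟩
  refine ⟨N, hN.2.prop.1, hN.2.prop.2, ?_⟩
  intro A hA hNA hAf
  exact hN.2.le_of_ge ⟨hA, hAf⟩ hNA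

theorem finite_of_comm {Q : Type} [Group Q] (H : Subgroup Q) (hfg : H.FG)
    (hc : ∀ a ∈ H, ∀ b ∈ H, a * b = b * a) (ht : ∀ a : Q, ∃ n : ℕ, 0 < n ∧ a ^ n = 1) :
    Finite H := by
  let _ : CommGroup H :=
    { (inferInstance : Group H) with
      mul_comm := fun a b => Subtype.ext (hc a a.2 b b.2) }
  have : Group.FG H := (Group.fg_iff_subgroup_fg H).mpr hfg
  refine CommGroup.finite_of_fg_isMulTorsion (G := H) ?_
  intro a
  obtain ⟨n, hn, h1⟩ := ht a
  exact isOfFinOrder_iff_pow_eq_one.mpr ⟨n, hn, Subtype.ext (by simpa using h1)⟩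

theorem comm_of_co {Q : Type} [Group Q] {a b : Q} (h : co a b = 1) : a * b = b * a := by
  have h2 : b⁻¹ * a * b = a := by
    have : a⁻¹ * (b⁻¹ * a * b) = 1 := by simpa [co, mul_assoc] using h
    exact (inv_mul_eq_one.mp this).symm
  calc a * b = b * (b⁻¹ * a * b) := by group
    _ = b * a := by rw [h2]

theorem co_map {Q R : Type} [Group Q] [Group R] (f : Q →* R) (a b : Q) :
    f (co a b) = co (f a) (f b) := by
  simp [co]

/-- The normal closure of an element that commutes with its conjugates is abelian. -/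
theorem normalClosure_comm {Q : Type} [Group Q] {w : Q}
    (h : ∀ g : Q, co w (g⁻¹ * w * g) = 1) :
    ∀ a ∈ Subgroup.normalClosure {w}, ∀ b ∈ Subgroup.normalClosure {w}, a * b = b * a := by
  have key : ∀ a ∈ Group.conjugatesOfSet ({w} : Set Q),
      ∀ b ∈ Group.conjugatesOfSet ({w} : Set Q), a * b = b * a := by
    intro a ha b hb
    rw [Group.mem_conjugatesOfSet_iff] at ha hb
    obtain ⟨w1, hw1, ha⟩ := ha
    obtain ⟨w2, hw2, hb⟩ := hb
    rw [Set.mem_singleton_iff] at hw1 hw2
    rw [hw1] at ha
    rw [hw2] at hb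
    obtain ⟨c, hc⟩ := isConj_iff.mp ha
    obtain ⟨d, hd⟩ := isConj_iff.mp hb
    subst hc; subst hd
    have h1 := comm_of_co (h (d⁻¹ * c))
    have h2 : w * ((c⁻¹ * d) * w * (d⁻¹ * c)) = ((c⁻¹ * d) * w * (d⁻¹ * c)) * w := by
      simpa using h1
    calc c * w * c⁻¹ * (d * w * d⁻¹)
        = c * (w * ((c⁻¹ * d) * w * (d⁻¹ * c))) * c⁻¹ := by group
      _ = c * (((c⁻¹ * d) * w * (d⁻¹ * c)) * w) * c⁻¹ := by rw [h2]
      _ = d * w * d⁻¹ * (c * w * c⁻¹) := by group
  intro a ha b hb
  have := Subgroup.closure_le_centralizer_centralizer (Group.conjugatesOfSet ({w} : Set Q)) ha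
  rw [Subgroup.mem_centralizer_iff] at this
  refine (this b ?_).symm
  have hle : Subgroup.closure (Group.conjugatesOfSet ({w} : Set Q)) ≤
      Subgroup.centralizer (Group.conjugatesOfSet ({w} : Set Q)) := by
    rw [Subgroup.closure_le]
    intro z hz
    rw [SetLike.mem_coe, Subgroup.mem_centralizer_iff]
    intro y hy
    exact key y hy z hz
  exact hle hb

variable {N : Subgroup G} [N.Normal]

/-- If `N` is maximal and `A/N` is locally finite then `A ≤ N`. -/
theorem le_of_quot (hN : LocFin N)
    (hmax : ∀ A : Subgroup G, A.Normal → N ≤ A → LocFin A → A ≤ N)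
    (A : Subgroup (G ⧸ N)) (hA : A.Normal) (hAf : LocFin A) (x : G)
    (hx : (QuotientGroup.mk' N) x ∈ A) : x ∈ N := by
  have h1 : LocFin (A.comap (QuotientGroup.mk' N)) := by
    refine locFin_ext hN ?_
    intro S hS hSA
    rw [MonoidHom.map_closure]
    refine hAf _ (hS.image _) ?_
    rintro _ ⟨s, hs, rfl⟩
    exact hSA hs
  refine hmax (A.comap (QuotientGroup.mk' N)) (hA.comap _) ?_ h1 hx
  intro n hn
  rw [Subgroup.mem_comap, QuotientGroup.mk'_apply, (QuotientGroup.eq_one_iff n).mpr hn]
  exact A.one_mem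

theorem mem_of_co (hper : ∀ g : G, ∃ n : ℕ, 0 < n ∧ g ^ n = 1) (hN : LocFin N)
    (hmax : ∀ A : Subgroup G, A.Normal → N ≤ A → LocFin A → A ≤ N)
    (w : G) (hw : ∀ g : G, co w (g⁻¹ * w * g) ∈ N) : w ∈ N := by
  refine le_of_quot hN hmax (Subgroup.normalClosure {(QuotientGroup.mk' N) w}) inferInstance
    ?_ w (Subgroup.subset_normalClosure rfl)
  have hq : ∀ g : G ⧸ N, co ((QuotientGroup.mk' N) w) (g⁻¹ * (QuotientGroup.mk' N) w * g) = 1 := by
    intro g
    obtain ⟨g, rfl⟩ := QuotientGroup.mk'_surjective N g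
    have h1 := (QuotientGroup.eq_one_iff _).mpr (hw g)
    have h2 : (QuotientGroup.mk' N) (co w (g⁻¹ * w * g)) = 1 := h1
    rw [co_map] at h2
    simpa using h2
  intro S hS hSA
  refine finite_of_comm _ ⟨hS.toFinset, by simp⟩ ?_ ?_
  · intro a ha b hb
    have hle : Subgroup.closure S ≤ Subgroup.normalClosure {(QuotientGroup.mk' N) w} :=
      (Subgroup.closure_le _).mpr hSA
    exact normalClosure_comm hq a (hle ha) b (hle hb)
  · intro a
    obtain ⟨a, rfl⟩ := QuotientGroup.mk'_surjective N a
    obtain ⟨n, hn, h1⟩ := hper a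
    exact ⟨n, hn, by rw [← map_pow, h1, map_one]⟩

/-- The main step. -/
theorem mem_of_v (hper : ∀ g : G, ∃ n : ℕ, 0 < n ∧ g ^ n = 1) (hN : LocFin N)
    (hmax : ∀ A : Subgroup G, A.Normal → N ≤ A → LocFin A → A ≤ N)
    (x : G) (m : ℕ) (hv : ∀ h : ℕ → G, v x h m ∈ N) : x ∈ N := by
  induction m with
  | zero => exact hv (fun _ => 1)
  | succ m ih =>
    apply ih
    intro h
    apply mem_of_co hper hN hmax
    intro g
    have h1 := hv (Function.update h m g)
    have h2 : ∀ j ≤ m, v x (Function.update h m g) j = v x h j := by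
      intro j
      induction j with
      | zero => intro _; rfl
      | succ j ihj =>
        intro hj
        have h3 : Function.update h m g j = h j := Function.update_of_ne (by omega) _ _
        simp only [v, h3, ihj (by omega)]
    simpa only [v, h2 m le_rfl, Function.update_self] using h1

end ext

/-! ## Words and homomorphisms -/

section words
variable {G H : Type} [Group G] [Group H]

theorem v_congr (x : G) (h h' : ℕ → G) (m : ℕ) (hh : ∀ i < m, h i = h' i) :
    v x h m = v x h' m := by
  induction m with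
  | zero => rfl
  | succ m ih => simp only [v, ih (fun i hi => hh i (by omega)), hh m (by omega)]

theorem map_v (f : G →* H) (x : G) (h : ℕ → G) (m : ℕ) :
    f (v x h m) = v (f x) (fun i => f (h i)) m := by
  induction m with
  | zero => rfl
  | succ m ih => simp only [v, co_map, map_mul, map_inv, ih]

end words

/-! ## Burnside groups -/

theorem B_pow (n r : ℕ) (g : B n r) : g ^ n = 1 := by
  obtain ⟨g, rfl⟩ := QuotientGroup.mk_surjective g
  rw [← QuotientGroup.mk_pow, QuotientGroup.eq_one_iff]
  exact Subgroup.subset_normalClosure ⟨g, rfl⟩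

/-- The universal property of `B(n,r)`. -/
theorem exists_hom {G : Type} [Group G] (n r : ℕ) (hexp : ∀ g : G, g ^ n = 1) (y : ℕ → G) :
    ∃ f : B n r →* G, ∀ i < r, f (gen n r i) = y i := by
  refine ⟨QuotientGroup.lift _ (FreeGroup.lift (fun i : Fin r => y i)) ?_, ?_⟩
  · intro w hw
    have hle : Subgroup.normalClosure (Set.range (fun x : FreeGroup (Fin r) => x ^ n)) ≤
        (FreeGroup.lift (fun i : Fin r => y i)).ker := by
      apply Subgroup.normalClosure_le_normal
      rintro _ ⟨z, rfl⟩
      simp [MonoidHom.mem_ker, hexp]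
    exact hle hw
  · intro i hi
    simp [gen, hi]

theorem B_finite (n r : ℕ) (N : Subgroup (B n r)) (hN : LocFin N) (h : ∀ x, x ∈ N) :
    Finite (B n r) := by
  have hfg : Group.FG (B n r) := inferInstance
  obtain ⟨S, hS, hSf⟩ := Group.fg_iff.mp hfg
  have h1 := hN S hSf (fun s _ => h s)
  rw [hS] at h1
  exact Finite.of_equiv _ (Subgroup.topEquiv (G := B n r)).toEquiv

theorem burnside_v (n m : ℕ) (hn : 0 < n)
    (hv : v (gen n (m + 1) 0) (fun i => gen n (m + 1) (i + 1)) m = 1) (r : ℕ) :
    Finite (B n r) := by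
  obtain ⟨N, hNn, hN, hmax⟩ := exists_max (G := B n r)
  refine B_finite n r N hN ?_
  intro x
  refine mem_of_v (fun g => ⟨n, hn, B_pow n r g⟩) hN hmax x m ?_
  intro h
  obtain ⟨f, hf⟩ := exists_hom (G := B n r) n (m + 1) (B_pow n r)
    (fun i => if i = 0 then x else h (i - 1))
  have h1 := congrArg f hv
  rw [map_v, map_one, hf 0 (by omega)] at h1
  have h2 : v x (fun i => f (gen n (m + 1) (i + 1))) m = v x h m := by
    apply v_congr
    intro i hi
    rw [hf (i + 1) (by omega)]
    simp
  rw [if_pos rfl, h2] at h1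
  rw [h1]
  exact N.one_mem

/-! ## Normal closures of small class or derived length -/

section cls
variable {G : Type} [Group G]

theorem lcs_top_mul (i j : ℕ) : ⁅(⊤ : Subgroup G).lowerCentralSeries i,
    (⊤ : Subgroup G).lowerCentralSeries j⁆ ≤ (⊤ : Subgroup G).lowerCentralSeries (i + j + 1) := by
  induction j generalizing i with
  | zero => rw [Subgroup.lowerCentralSeries_zero]; exact le_rfl
  | succ j ih =>
    set K := (⊤ : Subgroup G).lowerCentralSeries (i + (j + 1) + 1) with hK
    let f := QuotientGroup.mk' K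
    have hker : f.ker = K := QuotientGroup.ker_mk' K
    have h0 : ∀ A : Subgroup G, A ≤ K → A.map f = ⊥ := by
      intro A hA
      rw [Subgroup.map_eq_bot_iff, hker]
      exact hA
    have h1 : ∀ A : Subgroup G, A.map f = ⊥ → A ≤ K := by
      intro A hA
      rw [Subgroup.map_eq_bot_iff, hker] at hA
      exact hA
    apply h1
    rw [Subgroup.map_commutator, Subgroup.commutator_comm, Subgroup.lowerCentralSeries_succ,
      Subgroup.map_commutator]
    apply Subgroup.commutator_commutator_eq_bot_of_rotate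
    · rw [← Subgroup.map_commutator, ← Subgroup.map_commutator]
      apply h0
      refine (Subgroup.commutator_mono (Subgroup.commutator_comm_le _ _) le_rfl).trans ?_
      refine (ih (i + 1)).trans (le_of_eq ?_)
      rw [hK]
      congr 1
      omega
    · rw [← Subgroup.map_commutator, ← Subgroup.map_commutator]
      apply h0
      refine (Subgroup.commutator_mono (ih i) le_rfl).trans (le_of_eq ?_)
      rw [hK, ← Subgroup.lowerCentralSeries_succ]
      congr 1

theorem lcs_mul (P : Subgroup G) (i j : ℕ) : ⁅P.lowerCentralSeries i, P.lowerCentralSeries j⁆ ≤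
    P.lowerCentralSeries (i + j + 1) := by
  rw [← Subgroup.top_subtype_lowerCentralSeries P i, ← Subgroup.top_subtype_lowerCentralSeries P j,
    ← Subgroup.top_subtype_lowerCentralSeries P (i + j + 1), ← Subgroup.map_commutator]
  exact Subgroup.map_mono (lcs_top_mul i j)

theorem co_mem {A C : Subgroup G} {a c : G} (ha : a ∈ A) (hc : c ∈ C) : co a c ∈ ⁅A, C⁆ := by
  have := Subgroup.commutator_mem_commutator (A.inv_mem ha) (C.inv_mem hc)
  simpa [co, commutatorElement_def] using this

/-- `g⁻¹ P g ≤ P`. -/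
def Inv (P : Subgroup G) (g : G) : Prop := P.map (MulAut.conj g⁻¹).toMonoidHom ≤ P

theorem Inv.mem {P : Subgroup G} {g : G} (h : Inv P g) {y : G} (hy : y ∈ P) : g⁻¹ * y * g ∈ P := by
  have := h (Subgroup.mem_map_of_mem _ hy)
  simpa using this

theorem Inv.der {P : Subgroup G} {g : G} (h : Inv P g) (j : ℕ) : Inv (der P j) g := by
  induction j with
  | zero => exact h
  | succ j ih =>
    unfold Inv at *
    rw [RadicalCriterion.der, Subgroup.map_commutator]
    exact Subgroup.commutator_mono ih ih

theorem Inv.lcs {P : Subgroup G} {g : G} (h : Inv P g) (j : ℕ) :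
    Inv (P.lowerCentralSeries j) g := by
  induction j with
  | zero => exact h
  | succ j ih =>
    unfold Inv at *
    rw [Subgroup.lowerCentralSeries_succ, Subgroup.map_commutator]
    exact Subgroup.commutator_mono ih h

theorem v_mem_der {P : Subgroup G} {x : G} (hx : x ∈ P) {h : ℕ → G} {m : ℕ}
    (hh : ∀ i < m, Inv P (h i)) (j : ℕ) (hj : j ≤ m) : v x h j ∈ der P j := by
  induction j with
  | zero => exact hx
  | succ j ih => exact co_mem (ih (by omega)) (((hh j hj).der j).mem (ih (by omega)))

theorem v_mem_lcs {P : Subgroup G} {x : G} (hx : x ∈ P) {h : ℕ → G} {m : ℕ}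
    (hh : ∀ i < m, Inv P (h i)) (j : ℕ) (hj : j ≤ m) :
    v x h j ∈ P.lowerCentralSeries (2 ^ j - 1) := by
  induction j with
  | zero => exact hx
  | succ j ih =>
    have h1 := lcs_mul P _ _ (co_mem (ih (by omega)) (((hh j hj).lcs _).mem (ih (by omega))))
    have h2 : 2 ^ j - 1 + (2 ^ j - 1) + 1 = 2 ^ (j + 1) - 1 := by
      have := Nat.one_le_two_pow (n := j)
      rw [pow_succ]; omega
    rw [h2] at h1
    exact h1

theorem v_mem_lcs_top (x : G) (h : ℕ → G) (j : ℕ) :
    v x h j ∈ (⊤ : Subgroup G).lowerCentralSeries (2 ^ (j + 1) - 2) := by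
  induction j with
  | zero => simp
  | succ j ih =>
    have h0 : co (v x h j) (h j) ∈ (⊤ : Subgroup G).lowerCentralSeries (2 ^ (j + 1) - 2 + 1) :=
      co_mem ih (Subgroup.mem_top (h j))
    have h3 : v x h (j + 1) = co (v x h j) (co (v x h j) (h j)) := by
      simp only [v, co]
      group
    have h1 := lcs_mul (⊤ : Subgroup G) _ _ (co_mem ih h0)
    have h2 : 2 ^ (j + 1) - 2 + (2 ^ (j + 1) - 2 + 1) + 1 = 2 ^ (j + 1 + 1) - 2 := by
      have := Nat.one_le_two_pow (n := j)
      rw [pow_succ, pow_succ]; omega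
    rw [h2, ← h3] at h1
    exact h1

theorem inv_ncl (x : G) (h : ℕ → G) (m : ℕ) : ∀ i < m, Inv (ncl x h m) (h i) := by
  intro i hi
  unfold Inv ncl
  rw [MonoidHom.map_closure, Subgroup.closure_le]
  rintro _ ⟨_, ⟨g, hg, rfl⟩, rfl⟩
  refine Subgroup.subset_closure ⟨g * h i, Subgroup.mul_mem _ hg
    (Subgroup.subset_closure (Or.inr ⟨i, hi, rfl⟩)), ?_⟩
  simp [mul_assoc]

theorem mem_ncl (x : G) (h : ℕ → G) (m : ℕ) : x ∈ ncl x h m :=
  Subgroup.subset_closure ⟨1, Subgroup.one_mem _, by simp⟩

theorem inv_normal (P : Subgroup G) [P.Normal] (g : G) : Inv P g := by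
  rintro _ ⟨y, hy, rfl⟩
  have := Subgroup.Normal.conj_mem (H := P) inferInstance y hy g⁻¹
  simpa using this

end cls

/-! ## The criteria -/

/-- The criterion for elements of a periodic group. -/
theorem crit_v (G : Type) [Group G] (hper : ∀ g : G, ∃ n : ℕ, 0 < n ∧ g ^ n = 1) (x : G) (m : ℕ)
    (hx : (∀ h : ℕ → G, v x h m = 1) ∨
      (∀ h : ℕ → G, der (ncl x h m) m = ⊥) ∨
      (∀ h : ℕ → G, (ncl x h m).lowerCentralSeries (2 ^ m - 1) = ⊥)) :
    LocFin (Subgroup.normalClosure {x}) := by
  have hv : ∀ h : ℕ → G, v x h m = 1 := by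
    rcases hx with hx | hx | hx
    · exact hx
    · intro h
      have h1 := v_mem_der (mem_ncl x h m) (inv_ncl x h m) m le_rfl
      rw [hx h] at h1
      simpa using h1
    · intro h
      have h1 := v_mem_lcs (mem_ncl x h m) (inv_ncl x h m) m le_rfl
      rw [hx h] at h1
      simpa using h1
  obtain ⟨N, hNn, hN, hmax⟩ := exists_max (G := G)
  refine locFin_mono ?_ hN
  apply Subgroup.normalClosure_le_normal
  rw [Set.singleton_subset_iff]
  exact mem_of_v hper hN hmax x m (fun h => by rw [hv h]; exact N.one_mem)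

/-- The criterion for Burnside groups. -/
theorem burnside_crit (n m : ℕ) (hn : 0 < n)
    (hx : v (gen n (m + 1) 0) (fun i => gen n (m + 1) (i + 1)) m = 1 ∨
      der (Subgroup.normalClosure {gen n (m + 1) 0}) m = ⊥ ∨
      (Subgroup.normalClosure {gen n (m + 1) 0}).lowerCentralSeries (2 ^ m - 1) = ⊥ ∨
      (⊤ : Subgroup (B n (m + 1))).lowerCentralSeries (2 ^ (m + 1) - 2) = ⊥) (r : ℕ) :
    Finite (B n r) := by
  apply burnside_v n m hn
  rcases hx with hx | hx | hx | hx
  · exact hx
  · have h1 := v_mem_der (P := Subgroup.normalClosure {gen n (m + 1) 0})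
      (Subgroup.subset_normalClosure rfl) (h := fun i => gen n (m + 1) (i + 1)) (m := m)
      (fun i _ => inv_normal _ _) m le_rfl
    rw [hx] at h1
    simpa using h1
  · have h1 := v_mem_lcs (P := Subgroup.normalClosure {gen n (m + 1) 0})
      (Subgroup.subset_normalClosure rfl) (h := fun i => gen n (m + 1) (i + 1)) (m := m)
      (fun i _ => inv_normal _ _) m le_rfl
    rw [hx] at h1
    simpa using h1
  · have h1 := v_mem_lcs_top (gen n (m + 1) 0) (fun i => gen n (m + 1) (i + 1)) m
    rw [hx] at h1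
    simpa using h1

/-! ## The result -/

/-- If the relation `v_m = 1` holds for the free generators of the Burnside group `B(n,m+1)`, for one
`m`, in particular if the normal closure of one free generator in `B(n,m+1)` is soluble of derived
length at most `m` or nilpotent of class less than `2^m`, or if `B(n,m+1)` is nilpotent of class at
most `2^(m+1) - 2`, then `B(n,r)` is finite for every `r`. -/
theorem result (n m : ℕ) (hn : 0 < n)
    (hx : v (gen n (m + 1) 0) (fun i => gen n (m + 1) (i + 1)) m = 1 ∨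
      der (Subgroup.normalClosure {gen n (m + 1) 0}) m = ⊥ ∨
      (Subgroup.normalClosure {gen n (m + 1) 0}).lowerCentralSeries (2 ^ m - 1) = ⊥ ∨
      (⊤ : Subgroup (B n (m + 1))).lowerCentralSeries (2 ^ (m + 1) - 2) = ⊥) (r : ℕ) :
    Finite (B n r) :=
  burnside_crit n m hn hx r

end Pool.Agent.Results.MP_20a6e6_al.RadicalCriterion
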